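import Mathlib

set_option autoImplicit false

namespace Pool.Agent.H.MP_4e48d5_nt

open MeasureTheory Metric Finset

theorem bonf {α ι : Type*} [MeasurableSpace α] [DecidableEq ι] (μ : Measure α) [IsFiniteMeasure μ]
    (B : ι → Set α) (hB : ∀ i, MeasurableSet (B i)) (s : Finset ι) :
    ∑ i ∈ s, μ.real (B i) - ∑ i ∈ s, ∑ k ∈ s, (if i = k then 0 else μ.real (B i ∩ B k)) ≤
      μ.real (⋃ i ∈ s, B i) := by
  induction s using Finset.induction_on with
  | empty => simp
  | insert a s ha ih =>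
    have h1 : μ.real (B a ∪ ⋃ i ∈ s, B i) + μ.real (B a ∩ ⋃ i ∈ s, B i) =
        μ.real (B a) + μ.real (⋃ i ∈ s, B i) :=
      measureReal_union_add_inter (Finset.measurableSet_biUnion s fun i _ => hB i)
        (measure_ne_top _ _) (measure_ne_top _ _)
    have h2 : μ.real (B a ∩ ⋃ i ∈ s, B i) ≤ ∑ k ∈ s, μ.real (B a ∩ B k) := by
      rw [Set.inter_iUnion₂]
      exact measureReal_biUnion_finset_le _ _
    have h3 : ∑ k ∈ s, (if a = k then 0 else μ.real (B a ∩ B k)) = ∑ k ∈ s, μ.real (B a ∩ B k) :=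
      Finset.sum_congr rfl fun k hk => if_neg fun h : a = k => ha (h ▸ hk)
    have h4 : 0 ≤ ∑ i ∈ s, (if i = a then 0 else μ.real (B i ∩ B a)) :=
      Finset.sum_nonneg fun i _ => by split_ifs <;> positivity
    rw [Finset.set_biUnion_insert]
    simp only [Finset.sum_insert ha, if_true, Finset.sum_add_distrib, h3]
    linarith

theorem tors_small (L : ℕ) (hL : 0 < L) (r : ℝ) (hr : 0 ≤ r) (S : Finset UnitAddCircle)
    (hS : ∀ z ∈ S, L • z = 0 ∧ z ≠ 0 ∧ ‖z‖ ≤ r) : (S.card : ℝ) ≤ 2 * r * L := by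
  classical
  have hL' : (0 : ℝ) < L := by exact_mod_cast hL
  set m := ⌊r * L⌋₊ with hm
  have hsub : S ⊆ ((Finset.Icc (-(m : ℤ)) m).erase 0).image
      fun k : ℤ => (((k : ℝ) / L : ℝ) : UnitAddCircle) := by
    intro z hz
    obtain ⟨h1, h2, h3⟩ := hS z hz
    obtain ⟨x, rfl⟩ := QuotientAddGroup.mk_surjective z
    have e : ((x - round x : ℝ) : UnitAddCircle) = (x : UnitAddCircle) := by
      rw [AddCircle.coe_sub, sub_eq_self, AddCircle.coe_eq_zero_iff]
      exact ⟨round x, by simp⟩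
    rw [UnitAddCircle.norm_eq] at h3
    rw [← e, ← AddCircle.coe_nsmul, AddCircle.coe_eq_zero_iff] at h1
    obtain ⟨k, hk⟩ := h1
    simp only [zsmul_eq_mul, mul_one, nsmul_eq_mul] at hk
    have hx : (k : ℝ) / L = x - round x := by rw [hk]; field_simp
    refine Finset.mem_image.2 ⟨k, ?_, by rw [hx, e]⟩
    have hk' : |(k : ℝ)| ≤ r * L := by
      rw [hk, abs_mul, abs_of_pos hL', mul_comm]; exact mul_le_mul_of_nonneg_right h3 hL'.le
    have : k.natAbs ≤ m := by
      rw [hm]; apply Nat.le_floor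
      rwa [Nat.cast_natAbs, Int.cast_abs]
    refine Finset.mem_erase.2 ⟨fun h0 => h2 ?_, Finset.mem_Icc.2 ⟨by omega, by omega⟩⟩
    rw [← e, ← hx, h0]; simp
  have h1 : S.card ≤ 2 * m := by
    refine (Finset.card_le_card hsub).trans (Finset.card_image_le.trans ?_)
    rw [Finset.card_erase_of_mem (by simp), Int.card_Icc]; omega
  have h2 : (m : ℝ) ≤ r * L := Nat.floor_le (by positivity)
  have h3 : (S.card : ℝ) ≤ 2 * m := by exact_mod_cast h1
  linarith

theorem pair_count (n n' : ℕ) (hn : 0 < n) (hn' : 0 < n') (r : ℝ) (hr : 0 ≤ r)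
    (S : Finset (UnitAddCircle × UnitAddCircle))
    (hS : ∀ p ∈ S, n • p.1 = 0 ∧ n' • p.2 = 0 ∧ p.1 ≠ p.2 ∧ ‖p.1 - p.2‖ ≤ r) :
    (S.card : ℝ) ≤ 2 * r * n * n' := by
  classical
  have hg : 0 < n.gcd n' := Nat.gcd_pos_of_pos_left _ hn
  have h1 : S.card ≤ n.gcd n' * (S.image fun p => p.1 - p.2).card := by
    refine Finset.card_le_mul_card_image _ _ fun z hz => ?_
    obtain ⟨p0, hp0, rfl⟩ := Finset.mem_image.1 hz
    set F := S.filter fun p => p.1 - p.2 = p0.1 - p0.2 with hF
    have hinj : Set.InjOn (fun p : UnitAddCircle × UnitAddCircle => p.1 - p0.1) F := by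
      intro p hp p' hp' h
      have e1 := (Finset.mem_filter.1 hp).2
      have e2 := (Finset.mem_filter.1 hp').2
      have h' : p.1 = p'.1 := sub_left_injective h
      refine Prod.ext h' ?_
      have : p.1 - p.2 = p'.1 - p'.2 := e1.trans e2.symm
      rw [h'] at this
      exact sub_right_injective this
    have hsub : (↑(F.image fun p => p.1 - p0.1) : Set UnitAddCircle) ⊆
        {x | n.gcd n' • x = 0} := by
      intro x hx
      obtain ⟨p, hp, rfl⟩ := Finset.mem_image.1 hx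
      obtain ⟨hp1, hp2⟩ := Finset.mem_filter.1 hp
      have a1 : n • (p.1 - p0.1) = 0 := by rw [nsmul_sub, (hS p hp1).1, (hS p0 hp0).1, sub_zero]
      have a2 : n' • (p.1 - p0.1) = 0 := by
        have : p.1 - p0.1 = p.2 - p0.2 := sub_eq_sub_iff_sub_eq_sub.1 hp2
        rw [this, nsmul_sub, (hS p hp1).2.1, (hS p0 hp0).2.1, sub_zero]
      exact addOrderOf_dvd_iff_nsmul_eq_zero.1 (Nat.dvd_gcd
        (addOrderOf_dvd_iff_nsmul_eq_zero.2 a1) (addOrderOf_dvd_iff_nsmul_eq_zero.2 a2))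
    have := (Set.encard_le_encard hsub).trans
      (AddCircle.card_torsion_le_of_isSMulRegular (1 : ℝ) (n.gcd n') hg.ne'
        (.of_right_eq_zero_of_smul fun _ => by simp [hg.ne']))
    rw [Set.encard_coe_eq_coe_finsetCard, Finset.card_image_of_injOn hinj] at this
    exact_mod_cast this
  have h2 := tors_small (n.lcm n') (Nat.lcm_pos hn hn') r hr (S.image fun p => p.1 - p.2) (by
    intro z hz
    obtain ⟨p, hp, rfl⟩ := Finset.mem_image.1 hz
    obtain ⟨a1, a2, a3, a4⟩ := hS p hp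
    refine ⟨?_, sub_ne_zero.2 a3, a4⟩
    rw [nsmul_sub, addOrderOf_dvd_iff_nsmul_eq_zero.1
      ((addOrderOf_dvd_iff_nsmul_eq_zero.2 a1).trans (Nat.dvd_lcm_left _ _)),
      addOrderOf_dvd_iff_nsmul_eq_zero.1
      ((addOrderOf_dvd_iff_nsmul_eq_zero.2 a2).trans (Nat.dvd_lcm_right _ _)), sub_zero])
  have h3 : ((n.gcd n' : ℕ) : ℝ) * (n.lcm n' : ℕ) = n * n' := by exact_mod_cast Nat.gcd_mul_lcm n n'
  have h4 : (S.card : ℝ) ≤ (n.gcd n' : ℕ) * ((S.image fun p => p.1 - p.2).card : ℝ) := by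
    exact_mod_cast h1
  calc (S.card : ℝ) ≤ (n.gcd n' : ℕ) * (2 * r * (n.lcm n' : ℕ)) :=
        h4.trans (mul_le_mul_of_nonneg_left h2 (Nat.cast_nonneg _))
    _ = 2 * r * (((n.gcd n' : ℕ) : ℝ) * (n.lcm n' : ℕ)) := by ring
    _ = _ := by rw [h3]; ring

theorem vol_ball (y : UnitAddCircle) (d : ℝ) (h0 : 0 ≤ d) (h1 : 2 * d ≤ 1) :
    volume.real (closedBall y d) = 2 * d := by
  rw [Measure.real, AddCircle.volume_closedBall, min_eq_right h1, ENNReal.toReal_ofReal (by linarith)]

theorem ds_bound {ι : Type} [DecidableEq ι] (T : Finset ι) (n : ι → ℕ) (d : ι → ℝ)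
    (hn : ∀ t ∈ T, 0 < n t) (hinj : Set.InjOn n T) (d0 : ∀ t ∈ T, 0 ≤ d t)
    (d1 : ∀ t ∈ T, 2 * d t ≤ 1) (E : Set UnitAddCircle)
    (hE : ∀ t ∈ T, ∀ y : UnitAddCircle, n t • y = 0 → closedBall y (d t) ⊆ E) :
    ∑ t ∈ T, 2 * (n t).totient * d t - 8 * (∑ t ∈ T, n t * d t) ^ 2 ≤ volume.real E := by
  classical
  obtain ⟨P, hP, hPc⟩ : ∃ P : ι → Finset UnitAddCircle,
      (∀ t ∈ T, ∀ y ∈ P t, addOrderOf y = n t) ∧ ∀ t ∈ T, (P t).card = (n t).totient := by
    refine ⟨fun t => if h : 0 < n t then (AddCircle.finite_setOfPred_addOrderOf_eq (1 : ℝ) h).toFinset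
      else ∅, fun t ht y hy => ?_, fun t ht => ?_⟩
    · simpa [hn t ht] using hy
    · simp only [dif_pos (hn t ht)]
      rw [← AddCircle.card_addOrderOf_eq_totient (1 : ℝ), ← Set.ncard_eq_toFinset_card _
        (AddCircle.finite_setOfPred_addOrderOf_eq (1 : ℝ) (hn t ht))]
      rfl
  have hP0 : ∀ t ∈ T, ∀ y ∈ P t, n t • y = 0 := fun t ht y hy => by
    rw [← hP t ht y hy]; exact addOrderOf_nsmul_eq_zero y
  have h := bonf volume (fun i : (_ : ι) × UnitAddCircle => closedBall i.2 (d i.1))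
    (fun i => measurableSet_closedBall) (T.sigma P)
  have h1 : volume.real (⋃ i ∈ T.sigma P, closedBall i.2 (d i.1)) ≤ volume.real E := by
    refine measureReal_mono (Set.iUnion₂_subset fun i hi => ?_)
    obtain ⟨a, b⟩ := Finset.mem_sigma.1 hi
    exact hE _ a _ (hP0 _ a _ b)
  have h2 : ∑ i ∈ T.sigma P, volume.real (closedBall i.2 (d i.1)) =
      ∑ t ∈ T, 2 * (n t).totient * d t := by
    rw [Finset.sum_sigma]
    refine Finset.sum_congr rfl fun t ht => ?_
    simp only [vol_ball _ _ (d0 t ht) (d1 t ht), Finset.sum_const, hPc t ht, nsmul_eq_mul]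
    ring
  have h3 : ∑ i ∈ T.sigma P, ∑ k ∈ T.sigma P, (if i = k then 0 else
      volume.real (closedBall i.2 (d i.1) ∩ closedBall k.2 (d k.1))) ≤
      8 * (∑ t ∈ T, n t * d t) ^ 2 := by
    rw [sq, Finset.sum_mul_sum, Finset.mul_sum, Finset.sum_sigma]
    refine Finset.sum_le_sum fun t ht => ?_
    simp only [Finset.sum_sigma]
    rw [Finset.sum_comm, Finset.mul_sum]
    refine Finset.sum_le_sum fun u hu => ?_
    rw [← Finset.sum_product']
    set S := (P t ×ˢ P u).filter fun p => p.1 ≠ p.2 ∧ ‖p.1 - p.2‖ ≤ d t + d u with hS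
    have hc := pair_count (n t) (n u) (hn t ht) (hn u hu) (d t + d u)
      (add_nonneg (d0 t ht) (d0 u hu)) S (by
        intro p hp
        obtain ⟨a, b, c⟩ := Finset.mem_filter.1 hp
        obtain ⟨a1, a2⟩ := Finset.mem_product.1 a
        exact ⟨hP0 t ht _ a1, hP0 u hu _ a2, b, c⟩)
    have hm0 : 0 ≤ min (d t) (d u) := le_min (d0 t ht) (d0 u hu)
    calc _ ≤ ∑ p ∈ P t ×ˢ P u, (if p.1 ≠ p.2 ∧ ‖p.1 - p.2‖ ≤ d t + d u then
            2 * min (d t) (d u) else 0) := by
          refine Finset.sum_le_sum fun p hp => ?_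
          obtain ⟨a1, a2⟩ := Finset.mem_product.1 hp
          split_ifs with e1 e2 e2
          · positivity
          · exact le_rfl
          · rcases le_total (d t) (d u) with hh | hh
            · rw [min_eq_left hh, ← vol_ball p.1 _ (d0 t ht) (d1 t ht)]
              exact measureReal_mono Set.inter_subset_left
            · rw [min_eq_right hh, ← vol_ball p.2 _ (d0 u hu) (d1 u hu)]
              exact measureReal_mono Set.inter_subset_right
          · have hne : p.1 ≠ p.2 := fun h => by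
              have : t = u := hinj ht hu (by rw [← hP t ht _ a1, ← hP u hu _ a2, h])
              subst this
              exact e1 (by rw [h])
            have : d t + d u < dist p.1 p.2 := by
              rw [dist_eq_norm]; exact not_le.1 fun h => e2 ⟨hne, h⟩
            rw [(closedBall_disjoint_closedBall this).inter_eq]; simp
      _ = S.card * (2 * min (d t) (d u)) := by
          rw [← Finset.sum_filter, Finset.sum_const, nsmul_eq_mul]
      _ ≤ 2 * (d t + d u) * n t * n u * (2 * min (d t) (d u)) :=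
          mul_le_mul_of_nonneg_right hc (by positivity)
      _ = 4 * (n t * n u) * ((d t + d u) * min (d t) (d u)) := by ring
      _ ≤ 4 * (n t * n u) * (2 * (d t * d u)) := by
          refine mul_le_mul_of_nonneg_left ?_ (by positivity)
          have := d0 t ht
          have := d0 u hu
          rcases le_total (d t) (d u) with hh | hh
          · rw [min_eq_left hh]; nlinarith
          · rw [min_eq_right hh]; nlinarith
      _ = _ := by ring
  linarith

end Pool.Agent.H.MP_4e48d5_nt
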