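import Pool.Agent.H.MP_4e48d5_nt.A

set_option autoImplicit false

namespace Pool.Agent.H.MP_4e48d5_nt

open MeasureTheory Metric Finset

def O (M : ℕ) : Finset ℕ := (range (2 * M)).filter Odd

theorem sum_O (f : ℕ → ℝ) (M : ℕ) : ∑ n ∈ O M, f n = ∑ m ∈ range M, f (2 * m + 1) := by
  unfold O
  rw [Finset.sum_filter]
  induction M with
  | zero => simp
  | succ M ih =>
    rw [show 2 * (M + 1) = 2 * M + 1 + 1 by ring, Finset.sum_range_succ, Finset.sum_range_succ, ih,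
      Finset.sum_range_succ, if_neg (by simp), if_pos (by simp), add_zero]

theorem harm (M : ℕ) : ∑ m ∈ range M, ((m : ℝ) + 1)⁻¹ = harmonic M := by
  simp [harmonic]

theorem O_upper (j : ℕ) : ∑ n ∈ O (2 ^ j), (n : ℝ)⁻¹ ≤ 1 + j := by
  rw [sum_O]
  have h1 : ∑ m ∈ range (2 ^ j), (((2 * m + 1 : ℕ) : ℝ))⁻¹ ≤ harmonic (2 ^ j) := by
    rw [← harm]
    refine Finset.sum_le_sum fun m _ => inv_anti₀ (by positivity) ?_
    push_cast; have : (0 : ℝ) ≤ m := Nat.cast_nonneg _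
    linarith
  have h2 := harmonic_le_one_add_log (2 ^ j)
  have h3 : Real.log ((2 ^ j : ℕ) : ℝ) ≤ j := by
    push_cast; rw [Real.log_pow]
    have := Real.log_two_lt_d9
    have : (0 : ℝ) ≤ j := Nat.cast_nonneg _
    nlinarith
  linarith

theorem O_lower (j : ℕ) : (j : ℝ) / 4 ≤ ∑ n ∈ O (2 ^ j), (n : ℝ)⁻¹ := by
  rw [sum_O]
  have h1 : (harmonic (2 ^ j) : ℝ) / 2 ≤ ∑ m ∈ range (2 ^ j), (((2 * m + 1 : ℕ) : ℝ))⁻¹ := by
    rw [← harm, Finset.sum_div]
    refine Finset.sum_le_sum fun m _ => ?_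
    rw [div_eq_mul_inv, ← mul_inv]
    refine inv_anti₀ (by positivity) ?_
    push_cast; linarith
  have h2 := log_add_one_le_harmonic (2 ^ j)
  have h3 : (j : ℝ) / 2 ≤ Real.log ((2 ^ j + 1 : ℕ) : ℝ) := by
    have : Real.log ((2 : ℝ) ^ j) ≤ Real.log ((2 ^ j + 1 : ℕ) : ℝ) :=
      Real.log_le_log (by positivity) (by push_cast; linarith)
    rw [Real.log_pow] at this
    have := Real.log_two_gt_d9
    have : (0 : ℝ) ≤ j := Nat.cast_nonneg _
    nlinarith
  linarith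

theorem O_tot (M : ℕ) :
    ∑ n ∈ O M, (n : ℝ)⁻¹ ≤ 2 * ∑ q ∈ O M, (q.totient : ℝ) / (q : ℝ) ^ 2 := by
  have hO : ∀ n ∈ O M, Odd n ∧ n < 2 * M := fun n hn => by
    simp only [O, mem_filter, mem_range] at hn; exact ⟨hn.2, hn.1⟩
  have h1 : ∀ n ∈ O M, (n : ℝ)⁻¹ =
      ∑ q ∈ O M, if q ∣ n then (q.totient : ℝ) / (n : ℝ) ^ 2 else 0 := by
    intro n hn
    obtain ⟨ho, hlt⟩ := hO n hn
    have hn0 : n ≠ 0 := ho.pos.ne'
    have : (O M).filter (· ∣ n) = n.divisors := by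
      ext q
      simp only [O, mem_filter, mem_range, Nat.mem_divisors]
      exact ⟨fun h => ⟨h.2, hn0⟩, fun h =>
        ⟨⟨(Nat.le_of_dvd ho.pos h.1).trans_lt hlt, ho.of_dvd_nat h.1⟩, h.1⟩⟩
    rw [← Finset.sum_filter, this, ← Finset.sum_div, ← Nat.cast_sum, Nat.sum_totient]
    have : (n : ℝ) ≠ 0 := by exact_mod_cast hn0
    field_simp
  rw [Finset.sum_congr rfl h1, Finset.sum_comm, Finset.mul_sum]
  refine Finset.sum_le_sum fun q hq => ?_
  obtain ⟨ho, hlt⟩ := hO q hq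
  have hq0 : (0 : ℝ) < q := by exact_mod_cast ho.pos
  rw [← Finset.sum_filter]
  have hsub : (O M).filter (q ∣ ·) ⊆ (Ioo 0 (2 * M)).image (q * ·) := by
    intro n hn
    obtain ⟨h, ⟨c, rfl⟩⟩ := mem_filter.1 hn
    obtain ⟨a, b⟩ := hO _ h
    have hc : 0 < c := Nat.pos_of_mul_pos_left a.pos
    exact mem_image.2 ⟨c, mem_Ioo.2 ⟨hc, lt_of_le_of_lt (Nat.le_mul_of_pos_left c ho.pos) b⟩, rfl⟩
  have h2 := sum_Ioo_inv_sq_le (α := ℝ) 0 (2 * M)
  calc _ ≤ ∑ n ∈ (Ioo 0 (2 * M)).image (q * ·), (q.totient : ℝ) / (n : ℝ) ^ 2 :=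
        Finset.sum_le_sum_of_subset_of_nonneg hsub fun _ _ _ => by positivity
    _ = ∑ c ∈ Ioo 0 (2 * M), (q.totient : ℝ) / (q : ℝ) ^ 2 * ((c : ℝ) ^ 2)⁻¹ := by
        rw [Finset.sum_image fun a _ b _ h => Nat.eq_of_mul_eq_mul_left ho.pos h]
        refine Finset.sum_congr rfl fun c _ => ?_
        push_cast; rw [mul_pow, div_mul_eq_div_div, div_eq_mul_inv]
    _ ≤ _ := by
        rw [← Finset.mul_sum, mul_comm]
        refine mul_le_mul_of_nonneg_right (by simpa using h2) (by positivity)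

def E (k : ℝ) (J : ℕ) : Set UnitAddCircle :=
  {x | ∃ j, J ≤ j ∧ ∃ q : ℕ, 1 ≤ q ∧ q ≤ 2 ^ (j + 1) ∧ ‖(2 ^ j * q) • x‖ ≤ k / (q * j ^ 2)}

theorem E_meas (k : ℝ) (J : ℕ) : MeasurableSet (E k J) := by
  unfold E
  simp only [Set.setOf_exists, Set.setOf_and]
  refine MeasurableSet.iUnion fun j => (MeasurableSet.const _).inter
    (MeasurableSet.iUnion fun q => (MeasurableSet.const _).inter ((MeasurableSet.const _).inter ?_))
  exact (isClosed_le (by fun_prop) continuous_const).measurableSet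

theorem E_lower (J : ℕ) (hJ : 1 ≤ J) : 1 / 32768 ≤ volume.real (E 1 J) := by
  classical
  set T : Finset ((_ : ℕ) × ℕ) := (Ico J (2 * J)).sigma fun j => O (2 ^ j) with hT
  have hmem : ∀ t ∈ T, J ≤ t.1 ∧ Odd t.2 ∧ t.2 < 2 ^ (t.1 + 1) := fun t ht => by
    simp only [hT, mem_sigma, mem_Ico, O, mem_filter, mem_range] at ht
    exact ⟨ht.1.1, ht.2.2, by rw [pow_succ']; exact ht.2.1⟩
  have h := ds_bound T (fun t => 2 ^ t.1 * t.2)
    (fun t => 1 / 1024 / (2 ^ t.1 * (t.2 : ℝ) ^ 2 * (t.1 : ℝ) ^ 2))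
    (fun t ht => Nat.mul_pos (by positivity) (hmem t ht).2.1.pos)
    (by
      rintro ⟨j, q⟩ ht ⟨j', q'⟩ ht' h
      have a := (hmem _ ht).2.1
      have b := (hmem _ ht').2.1
      simp only at a b h
      have e : j = j' := by
        have := congrArg (padicValNat 2) h
        rwa [padicValNat.mul (by positivity) a.pos.ne', padicValNat.mul (by positivity) b.pos.ne',
          padicValNat.prime_pow, padicValNat.prime_pow,
          padicValNat.eq_zero_of_not_dvd a.not_two_dvd_nat,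
          padicValNat.eq_zero_of_not_dvd b.not_two_dvd_nat] at this
      subst e
      rw [Nat.eq_of_mul_eq_mul_left (by positivity) h])
    (fun t _ => by positivity)
    (fun t ht => by
      obtain ⟨a, b, -⟩ := hmem t ht
      have h1 : (1 : ℝ) ≤ t.1 := by exact_mod_cast hJ.trans a
      have h2 : (1 : ℝ) ≤ t.2 := by exact_mod_cast b.pos
      have h3 : (1 : ℝ) ≤ 2 ^ t.1 * (t.2 : ℝ) ^ 2 * (t.1 : ℝ) ^ 2 :=
        one_le_mul_of_one_le_of_one_le (one_le_mul_of_one_le_of_one_le (one_le_pow₀ (by norm_num))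
          (one_le_pow₀ h2)) (one_le_pow₀ h1)
      have := div_le_self (by norm_num : (0 : ℝ) ≤ 1 / 1024) h3
      linarith)
    (E 1 J)
    (fun t ht y hy x hx => by
      obtain ⟨a, b, c⟩ := hmem t ht
      have h1 : (1 : ℝ) ≤ t.1 := by exact_mod_cast hJ.trans a
      have h2 : (1 : ℝ) ≤ t.2 := by exact_mod_cast b.pos
      refine ⟨t.1, a, t.2, b.pos, c.le, ?_⟩
      have : (2 ^ t.1 * t.2) • x = (2 ^ t.1 * t.2) • (x - y) := by rw [nsmul_sub, hy, sub_zero]
      rw [this]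
      refine norm_nsmul_le.trans ?_
      rw [mem_closedBall, dist_eq_norm] at hx
      refine (mul_le_mul_of_nonneg_left hx (Nat.cast_nonneg _)).trans ?_
      push_cast
      rw [show (2 : ℝ) ^ t.1 * t.2 * (1 / 1024 / (2 ^ t.1 * (t.2 : ℝ) ^ 2 * (t.1 : ℝ) ^ 2)) =
        1 / 1024 / (t.2 * t.1 ^ 2) by field_simp]
      exact div_le_div_of_nonneg_right (by norm_num) (by positivity))
  refine le_trans ?_ h
  have hJ' : (1 : ℝ) ≤ J := by exact_mod_cast hJ
  have hc : ((Ico J (2 * J)).card : ℝ) = J := by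
    rw [Nat.card_Ico, show 2 * J - J = J by omega]
  have hU : ∑ t ∈ T, ((2 ^ t.1 * t.2 : ℕ) : ℝ) *
      (1 / 1024 / (2 ^ t.1 * (t.2 : ℝ) ^ 2 * (t.1 : ℝ) ^ 2)) ≤ 1 / 512 := by
    rw [hT, Finset.sum_sigma]
    calc _ ≤ ∑ j ∈ Ico J (2 * J), (1 / 512 / (J : ℝ)) := by
          refine Finset.sum_le_sum fun j hj => ?_
          have h1 : (J : ℝ) ≤ j := by exact_mod_cast (mem_Ico.1 hj).1
          have h0 : (0 : ℝ) < j := by linarith
          calc _ = ∑ q ∈ O (2 ^ j), 1 / 1024 / (j : ℝ) ^ 2 * (q : ℝ)⁻¹ := by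
                refine Finset.sum_congr rfl fun q hq => ?_
                have : (0 : ℝ) < q := by exact_mod_cast (mem_filter.1 hq).2.pos
                push_cast; field_simp
            _ ≤ 1 / 1024 / (j : ℝ) ^ 2 * (2 * j) := by
                rw [← Finset.mul_sum]
                exact mul_le_mul_of_nonneg_left ((O_upper j).trans (by linarith)) (by positivity)
            _ = 1 / 512 / j := by field_simp; ring
            _ ≤ _ := div_le_div_of_nonneg_left (by norm_num) (by linarith) h1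
      _ = _ := by rw [Finset.sum_const, nsmul_eq_mul, hc]; field_simp
  have hU0 : 0 ≤ ∑ t ∈ T, ((2 ^ t.1 * t.2 : ℕ) : ℝ) *
      (1 / 1024 / (2 ^ t.1 * (t.2 : ℝ) ^ 2 * (t.1 : ℝ) ^ 2)) :=
    Finset.sum_nonneg fun _ _ => by positivity
  have hV : 1 / 16384 ≤ ∑ t ∈ T, 2 * ((2 ^ t.1 * t.2).totient : ℝ) *
      (1 / 1024 / (2 ^ t.1 * (t.2 : ℝ) ^ 2 * (t.1 : ℝ) ^ 2)) := by
    rw [hT, Finset.sum_sigma]
    calc (1 : ℝ) / 16384 = ∑ j ∈ Ico J (2 * J), (1 / 8192 / (2 * J : ℝ)) := by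
          rw [Finset.sum_const, nsmul_eq_mul, hc]; field_simp; ring
      _ ≤ _ := by
          refine Finset.sum_le_sum fun j hj => ?_
          have h1 : (J : ℝ) ≤ j := by exact_mod_cast (mem_Ico.1 hj).1
          have h2 : (j : ℝ) ≤ 2 * J := by exact_mod_cast (mem_Ico.1 hj).2.le
          have h0 : (0 : ℝ) < j := by linarith
          obtain ⟨i, rfl⟩ : ∃ i, j = i + 1 := ⟨j - 1, by have := (mem_Ico.1 hj).1; omega⟩
          calc _ ≤ 1 / 8192 / ((i + 1 : ℕ) : ℝ) := div_le_div_of_nonneg_left (by norm_num) h0 h2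
            _ = 1 / 1024 / ((i + 1 : ℕ) : ℝ) ^ 2 * (((i + 1 : ℕ) : ℝ) / 8) := by field_simp; ring
            _ ≤ 1 / 1024 / ((i + 1 : ℕ) : ℝ) ^ 2 *
                ∑ q ∈ O (2 ^ (i + 1)), (q.totient : ℝ) / (q : ℝ) ^ 2 := by
                refine mul_le_mul_of_nonneg_left ?_ (by positivity)
                have := O_lower (i + 1)
                have := O_tot (2 ^ (i + 1))
                linarith
            _ = _ := by
                rw [Finset.mul_sum]
                refine Finset.sum_congr rfl fun q hq => ?_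
                have ho := (mem_filter.1 hq).2
                have : (0 : ℝ) < q := by exact_mod_cast ho.pos
                rw [Nat.totient_mul ((Nat.coprime_two_left.2 ho).pow_left _),
                  Nat.totient_prime_pow_succ Nat.prime_two]
                push_cast; field_simp; ring
  nlinarith

theorem ae_W : ∀ᵐ x : UnitAddCircle, ∃ k : ℕ, ∀ J, x ∈ E k J := by
  set W : Set UnitAddCircle := ⋃ k : ℕ, ⋂ J, E k J with hW
  have hm : MeasurableSet W := MeasurableSet.iUnion fun k => MeasurableSet.iInter fun J => E_meas _ _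
  have hinv : (fun y : UnitAddCircle => 2 • y) ⁻¹' W ⊆ W := by
    intro x hx
    simp only [hW, Set.mem_preimage, Set.mem_iUnion, Set.mem_iInter] at hx ⊢
    obtain ⟨k, hk⟩ := hx
    refine ⟨4 * k, fun J => ?_⟩
    obtain ⟨j, hj, q, q1, q2, h⟩ := hk (J + 1)
    refine ⟨j + 1, by omega, q, q1, q2.trans (Nat.pow_le_pow_right (by norm_num) (by omega)), ?_⟩
    rw [smul_smul, show 2 ^ j * q * 2 = 2 ^ (j + 1) * q by ring] at h
    refine h.trans ?_
    have h1 : (1 : ℝ) ≤ j := by exact_mod_cast (by omega : 1 ≤ j)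
    have h2 : (0 : ℝ) < q := by exact_mod_cast q1
    have h3 : (0 : ℝ) ≤ k := Nat.cast_nonneg _
    rw [div_le_div_iff₀ (by positivity) (by positivity)]
    push_cast
    have : ((j : ℝ) + 1) ^ 2 ≤ 4 * j ^ 2 := by nlinarith
    nlinarith [mul_le_mul_of_nonneg_left this (mul_nonneg h3 h2.le)]
  rcases (AddCircle.ergodic_nsmul (T := 1) one_lt_two).ae_empty_or_univ_of_preimage_ae_le
    hm.nullMeasurableSet hinv.eventuallyLE with h | h
  · exfalso
    have h0 : volume (⋂ J, E 1 (J + 1)) = 0 := by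
      refine measure_mono_null (fun x hx => ?_) (ae_eq_empty.1 h)
      simp only [hW, Set.mem_iUnion, Set.mem_iInter] at hx ⊢
      refine ⟨1, fun J => ?_⟩
      obtain ⟨j, hj, hh⟩ := hx J
      exact ⟨j, by omega, by simpa using hh⟩
    have ha : Antitone fun J => E 1 (J + 1) := fun a b hab x ⟨j, hj, hh⟩ => ⟨j, by omega, hh⟩
    rw [ha.measure_iInter (fun J => (E_meas _ _).nullMeasurableSet) ⟨0, measure_ne_top _ _⟩] at h0
    have : ENNReal.ofReal (1 / 32768) ≤ ⨅ J, volume (E 1 (J + 1)) := le_iInf fun J =>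
      ENNReal.ofReal_le_of_le_toReal (E_lower (J + 1) (by omega))
    rw [h0] at this
    norm_num at this
  · filter_upwards [ae_eq_univ.1 h] with x hx
    simpa [hW] using hx

theorem ae_real : ∀ᵐ x : ℝ, ∃ k : ℕ, ∀ J : ℕ, ∃ j : ℕ, J ≤ j ∧ ∃ q : ℕ, 1 ≤ q ∧ q ≤ 2 ^ (j + 1) ∧
    ∃ a : ℤ, |q * (2 ^ j * x) - a| ≤ (k : ℝ) / (q * j ^ 2) := by
  have h : ∀ᵐ x : ℝ, ∃ k : ℕ, ∀ J, (x : UnitAddCircle) ∈ E k J := by
    rw [← Measure.restrict_univ (μ := (volume : Measure ℝ)), ← iUnion_Ioc_intCast ℝ,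
      ae_restrict_iUnion_iff]
    exact fun t => (UnitAddCircle.measurePreserving_mk t).quasiMeasurePreserving.ae ae_W
  filter_upwards [h] with x ⟨k, hk⟩
  refine ⟨k, fun J => ?_⟩
  obtain ⟨j, hj, q, q1, q2, h⟩ := hk J
  refine ⟨j, hj, q, q1, q2, round (q * (2 ^ j * x)), ?_⟩
  rw [← AddCircle.coe_nsmul, UnitAddCircle.norm_eq, nsmul_eq_mul] at h
  push_cast at h
  rwa [show (2 : ℝ) ^ j * q * x = q * (2 ^ j * x) by ring] at h

end Pool.Agent.H.MP_4e48d5_nt
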